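import Mathlib
import Pool.Agent.X28.SX.StepI
import Pool.Agent.Y877.SxP

/-!
# Goldbach representations `N = q + (N - q)` with `p_{q + 2} + t` prime, for almost all `N` and `t`

For almost all even numbers `N` between `x` and `2 x` and almost all vectors of shifts `t_1, …, t_r` (multiples of a small
primorial), there are at least `1 - ε` times the expected number of primes `q` in any given dense set of primes for which
`N - q` and all the numbers `p_{q + 2} + t_i` are prime.
-/

set_option autoImplicit false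

namespace Pool.Agent.Results.MP_0ec542_nt.AlmostAllMultiplesAndShifts

open Finset Filter

/-- the `k`-th prime, `p 1 = 2` -/
noncomputable def p (k : ℕ) : ℕ := Nat.nth Nat.Prime (k - 1)

/-- the product of `1 - 1/q` over the primes `q ≤ y` -/
noncomputable def V (y : ℕ) : ℝ := ∏ q ∈ (Icc 1 y).filter Nat.Prime, (1 - 1 / (q : ℝ))

open Classical in
/-- the `q ∈ Q` for which `N - q` and all the numbers `p_{q + 2} + t i`, `i < r`, are prime -/
noncomputable def Good (N : ℕ) (Q : Finset ℕ) {r : ℕ} (t : Fin r → ℕ) : Finset ℕ :=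
  Q.filter (fun q => (N - q).Prime ∧ ∀ i, (p (q + 2) + t i).Prime)

open Classical in
/-- the conclusion for the number `N` and the set `Q`: for all but at most `ε H ^ r` of the vectors `h ∈ [1, H] ^ r` the
number `N - q` and all the numbers `p_{q + 2} + M (h₀ + h_i)`, `i < r`, are prime for at least
`(1 - ε) #Q / (V y log x) ^ (r + 1)` elements `q` of `Q`; `M` is the product of the primes up to `y` -/
def Sharp (x N r y h₀ H : ℕ) (ε : ℝ) (Q : Finset ℕ) : Prop :=
  (((Fintype.piFinset (fun _ : Fin r => Icc 1 H)).filter (fun h =>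
    ((Good N Q (fun i => primorial y * (h₀ + h i))).card : ℝ) <
      (1 - ε) * (Q.card / (V y * Real.log x) ^ (r + 1)))).card : ℝ) ≤ ε * (H : ℝ) ^ r

open Classical in
/-- For all `r`, `A`, `C` and `0 < ε ≤ 1` there is `K₀` such that for every `K₁` and every large `x`, every `y` between
`K₀ log log x` and `K₁ log log x`, with `M` the product of the primes `≤ y`, every window `(g₀, g₀ + G]` with
`x ≤ M g₀`, `M (g₀ + G) ≤ 2 x`, `G ≥ x / (M log ^ C x)` (for the even numbers) and every window `(h₀, h₀ + H]` with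
`M (h₀ + H) ≤ x`, `H ≥ x / (M log ^ C x)` (for the shifts), and every set `Q` of at least `x / log ^ A x` primes `q ≤ x`:
for all but at most `ε G` of the even numbers `N = M (g₀ + w)`, `1 ≤ w ≤ G`, for all but at most `ε H ^ r` of the vectors
`h ∈ [1, H] ^ r` the number `N - q` and all the numbers `p_{q + 2} + M (h₀ + h_i)`, `i < r`, are prime for at least
`(1 - ε) #Q / (V y log x) ^ (r + 1)` elements `q` of `Q`. -/
theorem result : ∀ (r A C : ℕ) (ε : ℝ), 0 < ε → ε ≤ 1 → ∃ K₀ : ℕ, ∀ K₁ : ℕ, ∃ x₀ : ℕ, ∀ x : ℕ, x₀ ≤ x →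
    ∀ y : ℕ, K₀ * Real.log (Real.log x) ≤ y → y ≤ K₁ * Real.log (Real.log x) →
    ∀ g₀ G : ℕ, x ≤ primorial y * g₀ → primorial y * (g₀ + G) ≤ 2 * x →
    (x : ℝ) ≤ primorial y * G * Real.log x ^ C →
    ∀ h₀ H : ℕ, primorial y * (h₀ + H) ≤ x → (x : ℝ) ≤ primorial y * H * Real.log x ^ C →
    ∀ Q : Finset ℕ, (∀ q ∈ Q, q.Prime ∧ q ≤ x) → (x : ℝ) ≤ Q.card * Real.log x ^ A →
    (((Icc 1 G).filter (fun w => ¬ Sharp x (primorial y * (g₀ + w)) r y h₀ H ε Q)).card : ℝ) ≤ ε * G := by
  intro r A C ε hε hε1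
  obtain ⟨δ, hδ⟩ : ∃ δ : ℝ, δ = ε / 2 := ⟨_, rfl⟩
  have hδ0 : 0 < δ := by rw [hδ]; positivity
  have hδ1 : δ ≤ 1 / 2 := by rw [hδ]; linarith
  obtain ⟨K₂, hK₂⟩ := Pool.Agent.Y877.SX.step_neg 1 (Or.inl rfl) A C δ hδ0 (by linarith)
  obtain ⟨K₃, hK₃⟩ := Pool.Agent.X28.SX.stepI (ι := Fin r) (fun _ => 1) (fun _ => Or.inl rfl) (A + 2) 2 C δ hδ0
    (by linarith)
  refine ⟨max K₂ K₃, fun K₁ => ?_⟩
  obtain ⟨n1, hn1⟩ := hK₂ K₁
  obtain ⟨n2, hn2⟩ := hK₃ K₁
  obtain ⟨n3, hn3⟩ := Pool.Agent.X28.SX.nth_le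
  obtain ⟨n4, hn4⟩ := Pool.Agent.H373R2.T7.ev_L' 3
  refine ⟨max n1 (max n2 (max n3 (max n4 1))), fun x hx y hy1 hy2 g₀ G hg0 hg1 hg2 h₀ H hh1 hh2 Q hQ hQc => ?_⟩
  have b1 : n1 ≤ x := le_trans (le_max_left _ _) hx
  have b2 : n2 ≤ x := le_trans (le_trans (le_max_left _ _) (le_max_right _ _)) hx
  have b3 : n3 ≤ x := le_trans (le_trans (le_trans (le_max_left _ _) (le_max_right _ _)) (le_max_right _ _)) hx
  have b4 : max n4 1 ≤ x := le_trans (le_trans (le_trans (le_max_right _ _) (le_max_right _ _)) (le_max_right _ _)) hx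
  have hL3 := hn4 x ((le_max_left _ _).trans b4)
  have hx1 : 1 ≤ x := (le_max_right _ _).trans b4
  have hx0 : (0 : ℝ) < x := by exact_mod_cast hx1
  have hL0 : 0 < Real.log x := by linarith
  have hLL : 0 ≤ Real.log (Real.log x) := Real.log_nonneg (by linarith)
  have hy2' : (K₂ : ℝ) * Real.log (Real.log x) ≤ y := by
    refine le_trans ?_ hy1
    apply mul_le_mul_of_nonneg_right _ hLL
    exact_mod_cast le_max_left K₂ K₃
  have hy3' : (K₃ : ℝ) * Real.log (Real.log x) ≤ y := by
    refine le_trans ?_ hy1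
    apply mul_le_mul_of_nonneg_right _ hLL
    exact_mod_cast le_max_right K₂ K₃
  have hQs : Q ⊆ Icc 1 x := by
    intro q hq
    rw [mem_Icc]
    exact ⟨(hQ q hq).1.one_lt.le, (hQ q hq).2⟩
  have key1 := hn1 x b1 y hy2' hy2 Q hQs (fun q hq => (hQ q hq).1) hQc g₀ G (by rw [pow_one]; exact hg0)
    (by rw [pow_one]; exact hg1) (by rw [pow_one]; exact hg2)
  have hVz : Pool.Agent.H373R2.T7.Vz y = V y := rfl
  rw [hVz] at key1
  have hV0 : 0 < V y := by
    unfold V
    apply prod_pos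
    intro q hq
    rw [mem_filter, mem_Icc] at hq
    have h2 : (2 : ℝ) ≤ q := by exact_mod_cast hq.2.two_le
    have h3 : 1 / (q : ℝ) ≤ 1 / 2 := one_div_le_one_div_of_le (by norm_num) h2
    linarith
  have hV1 : V y ≤ 1 := by
    unfold V
    apply prod_le_one
    · intro q hq
      rw [mem_filter, mem_Icc] at hq
      have h2 : (2 : ℝ) ≤ q := by exact_mod_cast hq.2.two_le
      have h3 : 1 / (q : ℝ) ≤ 1 / 2 := one_div_le_one_div_of_le (by norm_num) h2
      linarith
    · intro q hq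
      have : 0 ≤ 1 / (q : ℝ) := by positivity
      linarith
  have hVL : 0 < V y * Real.log x := by positivity
  have hQ0 : (0 : ℝ) ≤ Q.card := Nat.cast_nonneg _
  refine le_trans ?_ (key1.trans (mul_le_mul_of_nonneg_right (by rw [hδ]; linarith) (Nat.cast_nonneg _)))
  rw [Nat.cast_le]
  apply card_le_card
  intro w hw
  rw [mem_filter] at hw ⊢
  refine ⟨hw.1, ?_⟩
  by_contra hcon
  apply hw.2
  rw [not_lt] at hcon
  obtain ⟨N, hN⟩ : ∃ N : ℕ, N = primorial y * (g₀ + w) := ⟨_, rfl⟩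
  rw [← hN] at hcon ⊢
  obtain ⟨S, hS⟩ : ∃ S : Finset ℕ, S = Q.filter (fun s : ℕ => (N - s ^ 1).Prime) := ⟨Q.filter (fun s : ℕ => (N - s ^ 1).Prime), rfl⟩
  have hScard : (1 - δ) * (Q.card / (V y * Real.log x)) ≤ S.card := by
    rw [hS]
    have e1 : V y * (((1 : ℕ) : ℝ) * Real.log x) = V y * Real.log x := by push_cast; ring
    rw [e1] at hcon
    exact hcon
  have hSd : (x : ℝ) ≤ S.card * Real.log x ^ (A + 2) := by
    have h1 : (Q.card : ℝ) / (2 * Real.log x) ≤ S.card := by
      refine le_trans ?_ hScard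
      have h2 : (Q.card : ℝ) / Real.log x ≤ Q.card / (V y * Real.log x) := by
        apply div_le_div_of_nonneg_left hQ0 hVL
        nlinarith
      have h3 : 0 ≤ (Q.card : ℝ) / Real.log x := by positivity
      have h4 : (Q.card : ℝ) / (2 * Real.log x) = (1 / 2) * (Q.card / Real.log x) := by
        field_simp
      rw [h4]
      nlinarith
    rw [div_le_iff₀ (by positivity)] at h1
    have hc0 : (0 : ℝ) ≤ (S.card : ℝ) := Nat.cast_nonneg _
    calc (x : ℝ) ≤ Q.card * Real.log x ^ A := hQc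
      _ ≤ (S.card * (2 * Real.log x)) * Real.log x ^ A := mul_le_mul_of_nonneg_right h1 (by positivity)
      _ ≤ (S.card * (Real.log x * Real.log x)) * Real.log x ^ A := by
          apply mul_le_mul_of_nonneg_right _ (by positivity)
          apply mul_le_mul_of_nonneg_left _ hc0
          nlinarith
      _ = _ := by ring
  have hSQ : S ⊆ Q := by rw [hS]; exact filter_subset _ _
  have hinj : Set.InjOn (fun q => p (q + 2)) (S : Set ℕ) := by
    intro a _ b _ hab
    have h3 := Pool.Agent.X28.SX.nth_inj' (a := a + 2) (b := b + 2) (by omega) (by omega) hab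
    omega
  have key2 := hn2 x b2 y hy3' hy2 S hSd (fun _ q => p (q + 2)) (fun _ => hinj)
    (fun _ q hq => ⟨Nat.prime_nth_prime _, hn3 x b3 (q + 2) (by have := (hQ q (hSQ hq)).2; omega)⟩)
    (fun _ => h₀) (fun _ => H) (fun _ => by rw [pow_one]; exact hh1) (fun _ => by rw [pow_one]; exact hh2)
  simp only [prod_const, card_univ, Fintype.card_fin, hVz] at key2
  have e1 : V y * (((1 : ℕ) : ℝ) * Real.log x) = V y * Real.log x := by push_cast; ring
  rw [e1] at key2
  unfold Sharp
  refine le_trans ?_ (key2.trans (mul_le_mul_of_nonneg_right (by rw [hδ]; linarith) (by positivity)))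
  rw [Nat.cast_le]
  apply card_le_card
  intro h hh
  rw [mem_filter] at hh ⊢
  refine ⟨hh.1, ?_⟩
  have h1 := hh.2
  have h2 : (Good N Q (fun i => primorial y * (h₀ + h i))).card =
      (S.filter (fun j => ∀ i, (p (j + 2) ^ 1 + primorial y * (h₀ + h i)).Prime)).card := by
    rw [hS, filter_filter]
    unfold Good
    simp only [pow_one]
  rw [h2] at h1
  refine lt_of_le_of_lt (le_of_eq ?_) (lt_of_lt_of_le h1 ?_)
  · congr
  have h3 : (1 - δ) * ((1 - δ) * (Q.card / (V y * Real.log x)) / (V y * Real.log x) ^ r) ≤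
      (1 - δ) * (S.card / (V y * Real.log x) ^ r) := by
    apply mul_le_mul_of_nonneg_left _ (by linarith)
    exact div_le_div_of_nonneg_right hScard (by positivity)
  refine le_trans ?_ h3
  have h4 : (1 - δ) * ((1 - δ) * (Q.card / (V y * Real.log x)) / (V y * Real.log x) ^ r) =
      (1 - δ) ^ 2 * (Q.card / (V y * Real.log x) ^ (r + 1)) := by
    rw [pow_succ (V y * Real.log x) r]
    field_simp
  rw [h4]
  apply mul_le_mul_of_nonneg_right _ (by positivity)
  rw [hδ]
  nlinarith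

end Pool.Agent.Results.MP_0ec542_nt.AlmostAllMultiplesAndShifts
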