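import Mathlib
import Pool.Agent.X34.E.E37
import Pool.Agent.X34.E.E4

set_option autoImplicit false

/-!
# Sums `n = p + q`, `p` a prime followed by a bounded gap, `p_(q+2)` followed by a bounded gap

The problem asks for `2 n = p + q` with primes `p`, `q` such that `p_(q+2)` and `p_(q+2) + 2` are twin primes. Here `q`
is not required to be prime and the gap 2 is replaced by a bounded gap: `p_(q+3) - p_(q+2) ≤ 212`; but the prime `p` is
also followed by a bounded gap. Both parities of `p + q`, `p` in a residue class; more generally `q` in a set with at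
least `t / (log t)^B` elements up to `t`.

Proof: the count of the right order for 45 forms (engine E of helper34, files `Pool.Agent.X34.E`, which uses the starting
library's theorem for 45 forms) and the argument of Romanoff, with the moments of the singular series over the
differences of a fairly dense set (starting library, `Pool.Agent.TH685.TI`, here for 45 shifts).
-/

namespace Pool.Agent.Results.MP_0ec542_nt.BoundedGapsIndexShift

/-- `p` and `p + h` are consecutive primes -/
def Consecutive (p h : ℕ) : Prop := p.Prime ∧ (p + h).Prime ∧ ∀ m : ℕ, p < m → m < p + h → ¬ m.Prime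

/-- `p_m`, where `p_1 = 2` -/
noncomputable def pr (m : ℕ) : ℕ := Nat.nth Nat.Prime (m - 1)

/-- the number of the elements of `K` in `[1, t]` -/
noncomputable def count (K : Set ℕ) (t : ℕ) : ℕ := Set.ncard {k : ℕ | 1 ≤ k ∧ k ≤ t ∧ k ∈ K}

/-- the number of the `n ≤ x` of the form `n = p + q`, where `q ≥ 1` is in `K`, `q ≤ z`, and `p ≡ a (mod M)` is a prime
followed by the next prime at a distance `h M`, `1 ≤ h ≤ 106` -/
noncomputable def represented (M a : ℕ) (K : Set ℕ) (z : ℝ) (x : ℕ) : ℕ :=
  Set.ncard {n : ℕ | n ≤ x ∧ ∃ p q : ℕ, p + q = n ∧ 1 ≤ q ∧ q ∈ K ∧ (q : ℝ) ≤ z ∧ p ≡ a [MOD M] ∧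
    ∃ h : ℕ, 1 ≤ h ∧ h ≤ 106 ∧ Consecutive p (h * M)}

/-- Let `M` be even and `a` prime to `M` (for instance `M = 2`, `a = 1`). There is `e` such that: (1) if `K` has at least
`t / (log t)^B` elements in `[1, t]` for all large `t`, then for some `c > 0` and all large `x` at least
`c x / (log log log log x)^e` of the `n ≤ x` are of the form `n = p + q` with `q` in `K`,
`q ≤ (log x)^45 (log log x)^(B + 1)`, and `p ≡ a (mod M)` a prime such that the next prime is `p + h M`, `1 ≤ h ≤ 106`;
(2) for all `s` and some `c > 0`, for all large `x` at least `c x / (log log log log x)^e` of the `n ≤ x` are of the form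
`n = p + q` with `p_(q+s+1) - p_(q+s) ≤ 212` (in the problem `s = 2`), `q ≤ (log x)^45 (log log x)^48`, and
`p ≡ a (mod M)` a prime such that the next prime is `p + h M`, `1 ≤ h ≤ 106`. -/
theorem result : ∀ M a : ℕ, 0 < M → 2 ∣ M → a.Coprime M → ∃ e : ℕ,
    (∀ (B : ℕ) (K : Set ℕ), (∀ᶠ t : ℕ in Filter.atTop, (t : ℝ) / Real.log t ^ B ≤ count K t) →
      ∃ c : ℝ, 0 < c ∧ ∀ᶠ x : ℕ in Filter.atTop,
        c * x / Real.log (Real.log (Real.log (Real.log x))) ^ e ≤
          represented M a K (Real.log x ^ 45 * Real.log (Real.log x) ^ (B + 1)) x) ∧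
    ∀ s : ℕ, ∃ c : ℝ, 0 < c ∧ ∀ᶠ x : ℕ in Filter.atTop,
        c * x / Real.log (Real.log (Real.log (Real.log x))) ^ e ≤
          represented M a {q : ℕ | pr (q + s + 1) ≤ pr (q + s) + 212}
            (Real.log x ^ 45 * Real.log (Real.log x) ^ 48) x := by
  classical
  intro M a hM h2 ha
  have hE := Pool.Agent.X34.E.dhl45R
  obtain ⟨e, h⟩ := Pool.Agent.X34.E.sums_set hE M a hM ha h2
  have hcnt : ∀ (K : Set ℕ) (t : ℕ), Pool.Agent.X34.E.cntK K t = count K t := by
    intro K t
    unfold Pool.Agent.X34.E.cntK count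
    rw [← Set.ncard_coe_finset]
    congr 1
    ext m
    simp only [Finset.coe_filter, Finset.mem_Icc, Set.mem_ofPred_eq, and_assoc]
  have key : ∀ (B : ℕ) (K : Set ℕ), Pool.Agent.X34.E.Dense B K →
      ∃ c : ℝ, 0 < c ∧ ∀ᶠ x : ℕ in Filter.atTop,
        c * x / Real.log (Real.log (Real.log (Real.log x))) ^ e ≤
          represented M a K (Real.log x ^ 45 * Real.log (Real.log x) ^ (B + 1)) x := by
    intro B K hK
    obtain ⟨c, hc, h1⟩ := h B K hK
    refine ⟨c, hc, ?_⟩
    filter_upwards [h1] with x hx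
    refine hx.trans ?_
    unfold represented
    rw [Nat.cast_le, ← Set.ncard_coe_finset]
    apply Set.ncard_le_ncard
    · intro N hN
      rw [Finset.mem_coe, Finset.mem_filter, Finset.mem_Icc] at hN
      obtain ⟨⟨h5, h6⟩, p, q, h7, h8, h9, h10, k, hk1, hk2, h11, h12⟩ := hN
      exact ⟨h6, p, q, h7, h8, h9, h10, h11, k, hk1, hk2, h12⟩
    · exact (Set.finite_Iic x).subset fun m hm => hm.1
  refine ⟨e, fun B K hK => key B K ?_, fun s => ?_⟩
  · unfold Pool.Agent.X34.E.Dense
    simp only [hcnt]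
    exact hK
  · have hd : Pool.Agent.X34.E.Dense 46 {m : ℕ | 1 ≤ m ∧ Nat.nth Nat.Prime m ≤ Nat.nth Nat.Prime (m - 1) + 212} :=
      Pool.Agent.X34.E.index_density hE
    have hd2 := hd.sub s
    obtain ⟨c, hc, h1⟩ := key 47 _ hd2
    refine ⟨c, hc, ?_⟩
    filter_upwards [h1] with x hx
    refine hx.trans ?_
    unfold represented
    rw [Nat.cast_le]
    apply Set.ncard_le_ncard
    · rintro N ⟨h6, p, q, h7, h8, h9, h10, h11⟩
      refine ⟨h6, p, q, h7, h8, ?_, h10, h11⟩
      have h12 := h9.2
      show Nat.nth Nat.Prime (q + s + 1 - 1) ≤ Nat.nth Nat.Prime (q + s - 1) + 212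
      rwa [Nat.add_sub_cancel]
    · exact (Set.finite_Iic x).subset fun m hm => hm.1

end Pool.Agent.Results.MP_0ec542_nt.BoundedGapsIndexShift
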