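import Mathlib
import Pool.Agent.X26.AN.Tup
import Pool.Agent.X26.GB.Gold

/-!
# The prime factors of `p + b` for the primes `p` with `N - p` prime, for every even `N`

Let `N` be a large even number and let `p` run over the primes of an interval of length `X ≥ N ^ θ` in `[1, N]` for
which `N - p` is prime. For every integer `b ≠ 0, -N` and every real function `f` on the primes, bounded by `1`, all but
`ε (N / φ(N)) X / log ^ 2 N` of these `p` satisfy `|∑_{q | p + b} f(q) - ∑_{q ≤ N} f(q) / q| ≤ K √(log log N)`; in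
particular `p + b` has `log log N + O(√(log log N))` prime factors (`b = 2`: the index `p + 2` in the question).
-/

set_option autoImplicit false

namespace Pool.Agent.Results.MP_0ec542_nt.PrimeFactorsNearGoldbachPrimes

open Finset
open Pool.Agent.Y843.AC.HL (Tup Tp gg Sing)
open Pool.Agent.X26.AN (om mn tup mn_one)
open Pool.Agent.X26.GB (TN TN_tup TN_card mem_TN Sing_le)

/-- `p` and `N - p` are prime -/
def Goldbach (N p : ℕ) : Prop := p.Prime ∧ (N - p).Prime

/-- the sum of `f` over the prime factors of `n` -/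
noncomputable def additive (f : ℕ → ℝ) (n : ℤ) : ℝ := ∑ q ∈ n.natAbs.primeFactors, f q

/-- the mean value of the additive function: the sum of `f q / q` over the primes `q ≤ x` -/
noncomputable def mean (f : ℕ → ℝ) (x : ℕ) : ℝ := ∑ q ∈ (Icc 1 x).filter Nat.Prime, f q / q

theorem mean_eq (f : ℕ → ℝ) (x : ℕ) : mean f x = mn f x := by
  unfold mean mn Pool.Agent.Y843.HS.Pr
  have h1 : Icc 1 x = Ioc 0 x := by
    ext m
    simp only [mem_Icc, mem_Ioc]
    omega
  rw [h1]
  apply sum_congr rfl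
  intro q _
  rw [mul_one_div]

open Classical in
/-- For all `θ > 0` and `ε > 0` there is `K` such that for all large even `N`, all integers `b ≠ 0, -N` with `|b| ≤ N`
and all intervals `(y, y + X]` with `N ^ θ ≤ X`, `y + X ≤ N`: (1) for EVERY `f` with `|f| ≤ 1`, at most
`ε (N / φ(N)) X / log ^ 2 N` of the primes `p` of the interval with `N - p` prime and `p + b ≠ 0` have
`|∑_{q | p + b} f(q) - ∑_{q ≤ N} f(q) / q| > K √(log log N)`; (2) at most that many of them have
`|ω(p + b) - log log N| > K √(log log N)`. -/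
theorem result (θ ε : ℝ) (hθ : 0 < θ) (hε : 0 < ε) : ∃ K : ℝ, 0 < K ∧ ∃ N₀ : ℕ, ∀ N : ℕ, N₀ ≤ N → Even N →
    ∀ b : ℤ, b ≠ 0 → b ≠ -(N : ℤ) → |b| ≤ N → ∀ y X : ℕ, (N : ℝ) ^ θ ≤ X → y + X ≤ N →
    (∀ f : ℕ → ℝ, (∀ q, |f q| ≤ 1) →
      (((Ioc y (y + X)).filter (fun p : ℕ => Goldbach N p ∧ (p : ℤ) + b ≠ 0 ∧
        K * √(Real.log (Real.log N)) < |additive f ((p : ℤ) + b) - mean f N|)).card : ℝ) ≤
          ε * ((N / N.totient) * (X / Real.log N ^ 2))) ∧
    (((Ioc y (y + X)).filter (fun p : ℕ => Goldbach N p ∧ (p : ℤ) + b ≠ 0 ∧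
      K * √(Real.log (Real.log N)) <
        |((((p : ℤ) + b).natAbs.primeFactors.card : ℕ) : ℝ) - Real.log (Real.log N)|)).card : ℝ) ≤
          ε * ((N / N.totient) * (X / Real.log N ^ 2)) := by
  obtain ⟨C, hC, hmn⟩ := mn_one
  obtain ⟨K, hK, x₀, h⟩ := tup 2 1 1 le_rfl hθ hε
  have hev : ∀ᶠ x : ℕ in Filter.atTop, (1 : ℝ) ≤ Real.log (Real.log x) :=
    (Real.tendsto_log_atTop.comp (Real.tendsto_log_atTop.comp
      tendsto_natCast_atTop_atTop)).eventually_ge_atTop 1
  obtain ⟨x₁, hx₁⟩ := Filter.eventually_atTop.1 hev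
  have key : ∀ N : ℕ, max x₀ (max x₁ 3) ≤ N → Even N → ∀ b : ℤ, b ≠ 0 → b ≠ -(N : ℤ) → |b| ≤ N → ∀ y X : ℕ,
      (N : ℝ) ^ θ ≤ X → y + X ≤ N → 1 ≤ Real.log (Real.log N) ∧ 3 ≤ N ∧ ∀ f : ℕ → ℝ, (∀ q, |f q| ≤ 1) →
      (((Ioc y (y + X)).filter (fun p : ℕ => Goldbach N p ∧ (p : ℤ) + b ≠ 0 ∧
        K * √(Real.log (Real.log N)) < |additive f ((p : ℤ) + b) - mean f N|)).card : ℝ) ≤
          ε * ((N / N.totient) * (X / Real.log N ^ 2)) := by
    intro N hN he b hb0 hbN hb y X hX hyX
    have hx0 : x₀ ≤ N := (le_max_left _ _).trans hN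
    have hx1 : x₁ ≤ N := (le_max_left _ _).trans ((le_max_right _ _).trans hN)
    have hx3 : 3 ≤ N := (le_max_right _ _).trans ((le_max_right _ _).trans hN)
    refine ⟨hx₁ N hx1, hx3, fun f hf => ?_⟩
    have hT := TN_tup (N := N) (by omega) he.two_dvd
    have h1 := h N hx0 (TN N) hT b (by rw [mem_TN]; tauto) hb y X hX (by rw [pow_one]; exact hyX) f hf
      ((Ioc y (y + X)).filter (fun p => Goldbach N p)) (filter_subset _ _) (by
      intro p hp
      rw [mem_filter] at hp
      obtain ⟨-, h5, h6⟩ := hp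
      left
      intro t ht
      rw [mem_TN] at ht
      rcases ht with rfl | rfl
      · rw [add_zero, Int.natAbs_natCast]; exact h5
      · have h7 := h6.pos
        have e : ((p : ℤ) + -(N : ℤ)).natAbs = N - p := by omega
        rw [e]
        exact h6)
    have h8 : (Ioc y (y + X)).filter (fun p : ℕ => Goldbach N p ∧ (p : ℤ) + b ≠ 0 ∧
        K * √(Real.log (Real.log N)) < |additive f ((p : ℤ) + b) - mean f N|) ⊆
        ((Ioc y (y + X)).filter (fun p => Goldbach N p)).filter (fun n : ℕ => (n : ℤ) + b ≠ 0 ∧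
          K * √(Real.log (Real.log N)) < |om f ((n : ℤ) + b) - mn f N|) := by
      intro p hp
      rw [mem_filter] at hp
      rw [mem_filter, mem_filter]
      refine ⟨⟨hp.1, hp.2.1⟩, hp.2.2.1, ?_⟩
      rw [← mean_eq]
      exact hp.2.2.2
    refine (Nat.cast_le.2 (card_le_card h8)).trans (h1.trans ?_)
    apply mul_le_mul_of_nonneg_left _ hε.le
    have e : gg (TN N) N = Sing (TN N) / Real.log N ^ 2 := by
      unfold gg
      rw [hT.card]
    rw [e]
    have h9 := Sing_le (N := N) (by omega)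
    have hl : 0 < Real.log N := Real.log_pos (by exact_mod_cast (show 1 < N by omega))
    have hX0 : (0 : ℝ) ≤ X / Real.log N ^ 2 := by positivity
    calc (X : ℝ) * (Sing (TN N) / Real.log N ^ 2) = Sing (TN N) * (X / Real.log N ^ 2) := by ring
      _ ≤ _ := mul_le_mul_of_nonneg_right h9 hX0
  refine ⟨K + C, by positivity, max x₀ (max x₁ 3), fun N hN he b hb0 hbN hb y X hX hyX => ?_⟩
  obtain ⟨hll, hx3, hk⟩ := key N hN he b hb0 hbN hb y X hX hyX
  have h11 : 1 ≤ √(Real.log (Real.log N)) := by rw [Real.one_le_sqrt]; exact hll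
  have h12 : C ≤ C * √(Real.log (Real.log N)) := le_mul_of_one_le_right hC h11
  constructor
  · intro f hf
    refine le_trans (Nat.cast_le.2 (card_le_card ?_)) (hk f hf)
    intro k hkk
    rw [mem_filter] at hkk ⊢
    refine ⟨hkk.1, hkk.2.1, hkk.2.2.1, ?_⟩
    have := hkk.2.2.2
    linarith
  · refine le_trans (Nat.cast_le.2 (card_le_card ?_)) (hk (fun _ => 1) (fun _ => by rw [abs_one]))
    intro k hkk
    rw [mem_filter] at hkk ⊢
    refine ⟨hkk.1, hkk.2.1, hkk.2.2.1, ?_⟩
    have h13 := hkk.2.2.2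
    have e : additive (fun _ => 1) ((k : ℤ) + b) = ((((k : ℤ) + b).natAbs.primeFactors.card : ℕ) : ℝ) := by
      unfold additive
      rw [sum_const, nsmul_eq_mul, mul_one]
    rw [e, mean_eq]
    have h14 := hmn N hx3
    have h15 := abs_sub_abs_le_abs_sub (((((k : ℤ) + b).natAbs.primeFactors.card : ℕ) : ℝ) - Real.log (Real.log N))
      (((((k : ℤ) + b).natAbs.primeFactors.card : ℕ) : ℝ) - mn (fun _ => 1) N)
    have e2 : (((((k : ℤ) + b).natAbs.primeFactors.card : ℕ) : ℝ) - Real.log (Real.log N)) -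
      (((((k : ℤ) + b).natAbs.primeFactors.card : ℕ) : ℝ) - mn (fun _ => 1) N) =
        mn (fun _ => 1) N - Real.log (Real.log N) := by ring
    rw [e2] at h15
    linarith

end Pool.Agent.Results.MP_0ec542_nt.PrimeFactorsNearGoldbachPrimes
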