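import Mathlib
import Pool.Agent.X26.TY.Typ
import Pool.Agent.X26.GB.Gold

/-!
# Almost all Goldbach primes of every even `N` are centres of the expected number of patterns

Let `N` be a large even number and let `A` be an ARBITRARY set of primes `p` with `N - p` prime, in an arbitrary interval
of length `X ≥ N ^ θ` in `[1, N]`. Put `g = 𝔖(N) / log ^ 2 N` (the expected density of such primes). All but at most
`ε g X` elements `p` of `A` are the centres of at least `c D ^ m g ^ ((2K + 1) ^ m - 1)` patterns in `A`: for so many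
vectors `d ∈ [1, D] ^ m` all the `p + ∑ g_i d_i`, `|g_i| ≤ K`, belong to `A`. This is the order of magnitude which is
expected if `A` consists of all the primes `p` of the interval with `N - p` prime; `D` is any number between a power of
`log N` and `X`, and `c` does not depend on `N`, the interval, `D` and `A`.
-/

set_option autoImplicit false

namespace Pool.Agent.Results.MP_0ec542_nt.TypicalGoldbachPrimes

open Finset
open Pool.Agent.X26.GB (TN TN_tup TN_card mem_TN nu_one nu_two)
open Pool.Agent.Y843.AC.HL (loc Sing Sing_hasProd gg)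

/-- `p` and `N - p` are primes -/
def Goldbach (N p : ℕ) : Prop := p.Prime ∧ (N - p).Prime

/-- `p` is the centre of the pattern in `A` given by `d`: all the `p + ∑ g_i d_i`, `|g_i| ≤ K`, belong to `A` -/
def Centre {m : ℕ} (K : ℕ) (A : Finset ℕ) (p : ℕ) (d : Fin m → ℕ) : Prop :=
  ∀ g : Fin m → ℤ, (∀ i, |g i| ≤ K) → ∃ s ∈ A, (s : ℤ) = p + ∑ i, g i * (d i : ℤ)

open Classical in
/-- the number of the vectors `d` with entries in `[1, D]` for which `p` is the centre of the pattern in `A` -/
noncomputable def patterns (m K D : ℕ) (A : Finset ℕ) (p : ℕ) : ℕ :=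
  ((Fintype.piFinset (fun _ : Fin m => Icc 1 D)).filter (fun d => Centre K A p d)).card

/-- the number of the residue classes which are excluded modulo `q`: `1` if `q` divides `N`, otherwise `2` -/
def excluded (N q : ℕ) : ℕ := if q ∣ N then 1 else 2

/-- the singular series of Goldbach's problem -/
noncomputable def series (N : ℕ) : ℝ :=
  ∏' q : Nat.Primes, (1 - (excluded N q : ℝ) / (q : ℕ)) / (1 - 1 / ((q : ℕ) : ℝ)) ^ 2

theorem series_eq {N : ℕ} (hN : 1 ≤ N) : Sing (TN N) = series N := by
  unfold Sing series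
  congr 1
  funext q
  unfold loc excluded
  rw [TN_card hN]
  split_ifs with h
  · rw [nu_one h]
  · rw [nu_two h]

open Classical in
/-- For all `m`, `K`, `θ > 0`, `ε > 0` there are `c > 0` and `B` such that for all large even `N`, all intervals
`(y, y + X]` with `N ^ θ ≤ X ≤ N`, all `D` with `log ^ B N ≤ D ≤ X` and ALL sets `A` of primes `p` of the interval with
`N - p` prime: the number of the `p ∈ A` which are the centres of fewer than
`c D ^ m (𝔖(N) / log ^ 2 N) ^ ((2 K + 1) ^ m - 1)` patterns in `A` is at most `ε 𝔖(N) X / log ^ 2 N`. -/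
theorem result (m K : ℕ) (θ ε : ℝ) (hθ : 0 < θ) (hε : 0 < ε) : ∃ c : ℝ, 0 < c ∧ ∃ B N₀ : ℕ, ∀ N : ℕ, N₀ ≤ N →
    Even N → ∀ y X D : ℕ, (N : ℝ) ^ θ ≤ X → X ≤ N →
    Real.log N ^ B ≤ D → D ≤ X → ∀ A : Finset ℕ, (∀ p ∈ A, y < p ∧ p ≤ y + X ∧ Goldbach N p) →
    ((A.filter (fun p => (patterns m K D A p : ℝ) <
      c * ((D : ℝ) ^ m * (series N / Real.log N ^ 2) ^ ((2 * K + 1) ^ m - 1)))).card : ℝ) ≤
        ε * (series N * (X / Real.log N ^ 2)) := by
  obtain ⟨c, hc, B, x₀, h⟩ := Pool.Agent.X26.TY.typ m K 2 1 le_rfl hθ hε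
  refine ⟨c, hc, B, max x₀ 3, fun N hN he y X D hX hXx hBD hDX A hA => ?_⟩
  have hx0 : x₀ ≤ N := (le_max_left _ _).trans hN
  have hx3 : 3 ≤ N := (le_max_right _ _).trans hN
  have htup := TN_tup (N := N) (by omega) he.two_dvd
  have h1 := h N hx0 (TN N) htup y X D hX hXx hBD hDX A (fun p hp => by
    rw [mem_Ioc]
    exact ⟨(hA p hp).1, (hA p hp).2.1⟩) (fun p hp => by
    left
    obtain ⟨-, -, h2, h3⟩ := hA p hp
    intro t ht
    rw [mem_TN] at ht
    rcases ht with rfl | rfl
    · rw [add_zero, Int.natAbs_natCast]; exact h2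
    · have h5 := h3.pos
      have e : ((p : ℤ) + -(N : ℤ)).natAbs = N - p := by omega
      rw [e]
      exact h3)
  have e : gg (TN N) N = Sing (TN N) / Real.log N ^ (TN N).card := rfl
  rw [e, series_eq (by omega), TN_card (by omega)] at h1
  refine h1.trans (le_of_eq ?_)
  ring

end Pool.Agent.Results.MP_0ec542_nt.TypicalGoldbachPrimes
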